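import Pool.Agent.Helper99.EXC.GoalsD

/-! Packet EXC GLA (helper2): occupation times and the occupation of scale `k`. -/

set_option autoImplicit false

open Finset

namespace Pool.Agent.Helper2.EXC

open Pool.Agent.Helper99.ERW Pool.Agent.Helper99.EXC

/-! ### Boxes -/

lemma Bx_mono (b : ℕ) {k l : ℕ} (h : k ≤ l) : Bx b k ⊆ Bx b l := by
  intro x hx
  unfold Bx at hx ⊢
  rw [mem_box] at hx ⊢
  intro i
  refine (hx i).trans ?_
  exact_mod_cast Nat.mul_le_mul_left b (Nat.pow_le_pow_right (by norm_num) h)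

lemma card_box2 (n : ℕ) : (Pool.Agent.Helper99.ERW.box 2 n).card = (2 * n + 1) ^ 2 := by
  unfold Pool.Agent.Helper99.ERW.box
  rw [Fintype.card_piFinset]
  simp only [Finset.prod_const, Int.card_Icc, Finset.card_univ, Fintype.card_fin]
  congr 1
  omega

lemma card_Bx (b k : ℕ) : ((Bx b (k + 1)).card : ℝ) ≤ (4 * b + 1) ^ 2 * 4 ^ k := by
  unfold Bx
  rw [card_box2]
  have h1 : 2 * (b * 2 ^ (k + 1)) + 1 ≤ (4 * b + 1) * 2 ^ k := by
    have := Nat.one_le_two_pow (n := k)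
    rw [pow_succ]
    nlinarith
  have h2 : (2 * (b * 2 ^ (k + 1)) + 1) ^ 2 ≤ (4 * b + 1) ^ 2 * 4 ^ k := by
    calc (2 * (b * 2 ^ (k + 1)) + 1) ^ 2 ≤ ((4 * b + 1) * 2 ^ k) ^ 2 := Nat.pow_le_pow_left h1 2
      _ = (4 * b + 1) ^ 2 * 4 ^ k := by
        rw [mul_pow, ← pow_mul, mul_comm k 2, pow_mul]
        norm_num
  exact_mod_cast h2

/-! ### Finite sums and difference operators -/

lemma secondDiff_sum (B : Finset (Site 2)) (w : Site 2 → ℝ) (g : Site 2 → Site 2 → ℝ)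
    (l : Fin 2) (x : Site 2) :
    secondDiff (fun x => ∑ z ∈ B, w z * g z x) l x = ∑ z ∈ B, w z * secondDiff (g z) l x := by
  unfold secondDiff
  rw [← Finset.sum_add_distrib, Finset.mul_sum, ← Finset.sum_sub_distrib]
  refine Finset.sum_congr rfl fun z _ => ?_
  ring

lemma secondDiff_psi (φ Φ : Site 2 → ℝ) (z : Site 2) (l : Fin 2) (x : Site 2) :
    secondDiff (fun x => φ (x - z) - Φ x) l x = secondDiff φ l (x - z) - secondDiff Φ l x := by
  unfold secondDiff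
  have e1 : x + vec (l, true) - z = x - z + vec (l, true) := by abel
  have e2 : x + vec (l, false) - z = x - z + vec (l, false) := by abel
  simp only [e1, e2]
  ring

lemma La_psi (a : ℝ) (B : Finset (Site 2)) (w φ Φ : Site 2 → ℝ) (x : Site 2) :
    La a (fun x => ∑ z ∈ B, w z * (φ (x - z) - Φ x)) x =
      ∑ z ∈ B, w z * (La a φ (x - z) - La a Φ x) := by
  unfold La
  rw [secondDiff_sum B w (fun z x => φ (x - z) - Φ x),
    secondDiff_sum B w (fun z x => φ (x - z) - Φ x), Finset.mul_sum, Finset.mul_sum,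
    ← Finset.sum_add_distrib, Finset.sum_div]
  refine Finset.sum_congr rfl fun z _ => ?_
  rw [secondDiff_psi, secondDiff_psi]
  ring

lemma Df_psi (B : Finset (Site 2)) (w φ Φ : Site 2 → ℝ) (x : Site 2) :
    Df (fun x => ∑ z ∈ B, w z * (φ (x - z) - Φ x)) x =
      ∑ z ∈ B, w z * (Df φ (x - z) - Df Φ x) := by
  unfold Df
  rw [secondDiff_sum B w (fun z x => φ (x - z) - Φ x),
    secondDiff_sum B w (fun z x => φ (x - z) - Φ x),
    ← Finset.sum_sub_distrib, Finset.sum_div]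
  refine Finset.sum_congr rfl fun z _ => ?_
  rw [secondDiff_psi, secondDiff_psi]
  ring

/-! ### Cookies -/

section cook

variable {a : ℝ} {p : Site 2 → ℕ → ℝ} {V : Site 2 → ℝ} {Tl : Site 2 → ℕ → ℝ} {Si : Site 2 → ℝ}

lemma V_nonneg (hC : Cook a p V Tl Si) (z : Site 2) : 0 ≤ V z := by
  have := hC.tv z 0
  simpa [Vm] using this

lemma Sm_diff_le (hC : Cook a p V Tl Si) (z : Site 2) {i j : ℕ} (h : i ≤ j) :
    |Sm a p z j - Sm a p z i| ≤ V z := by
  unfold Sm
  rw [← Finset.sum_Ico_eq_sub _ h]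
  refine (Finset.abs_sum_le_sum_abs _ _).trans (le_trans ?_ (hC.tv z j))
  unfold Vm
  refine Finset.sum_le_sum_of_subset_of_nonneg ?_ fun _ _ _ => abs_nonneg _
  intro m hm
  rw [Finset.mem_Ico] at hm
  exact Finset.mem_range.mpr hm.2

lemma Sm_diff (hC : Cook a p V Tl Si) (z : Site 2) (i j : ℕ) :
    |Sm a p z i - Sm a p z j| ≤ V z := by
  rcases le_total i j with h | h
  · rw [abs_sub_comm]; exact Sm_diff_le hC z h
  · exact Sm_diff_le hC z h

/-- the reward with weights as a bilinear form -/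
lemma reward (hL : LTM_stmt) (hC : Cook a p V Tl Si) (Λ : Finset (Site 2)) (N : ℕ) (s0 : St) :
    ∃ F : Site 2 → ℝ, (∀ z, |F z| ≤ V z) ∧ ∀ w : Site 2 → ℝ,
      Rw p Λ N (fun s => w s.1 * dS a p s) s0 = ∑ z ∈ Λ, w z * F z := by
  refine ⟨fun z => Ex p Λ N (fun s => Sm a p z (s.2 z) - Sm a p z (s0.2 z)) s0, ?_, ?_⟩
  · intro z
    refine (Ex_abs hC.p0 hC.p1 Λ N _ s0).trans ?_
    exact Ex_le_const hC.p0 hC.p1 Λ N (fun s => Sm_diff hC z _ _) s0
  · intro w
    have h1 := (hL a p V Tl Si hC Λ N s0).1 w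
    have h2 : Ex p Λ N (fun s => ∑ z ∈ Λ, w z * Sm a p z (s.2 z)) s0 =
        ∑ z ∈ Λ, w z * Ex p Λ N (fun s => Sm a p z (s.2 z)) s0 := by
      rw [Ex_sum p Λ N Λ (fun z s => w z * Sm a p z (s.2 z))]
      refine Finset.sum_congr rfl fun z _ => ?_
      rw [Ex_smul p Λ N (w z) (fun s => Sm a p z (s.2 z))]
    rw [h2] at h1
    have h3 : ∀ z, Ex p Λ N (fun s => Sm a p z (s.2 z) - Sm a p z (s0.2 z)) s0 =
        Ex p Λ N (fun s => Sm a p z (s.2 z)) s0 - Sm a p z (s0.2 z) := by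
      intro z
      rw [Ex_sub p Λ N (fun s => Sm a p z (s.2 z)) (fun _ => Sm a p z (s0.2 z)), Ex_const]
    have h4 : ∑ z ∈ Λ, w z * Ex p Λ N (fun s => Sm a p z (s.2 z) - Sm a p z (s0.2 z)) s0 =
        ∑ z ∈ Λ, w z * Ex p Λ N (fun s => Sm a p z (s.2 z)) s0 -
          ∑ z ∈ Λ, w z * Sm a p z (s0.2 z) := by
      rw [← Finset.sum_sub_distrib]
      refine Finset.sum_congr rfl fun z _ => ?_
      rw [h3]; ring
    rw [h4]
    linarith

end cook

/-! ### Averages -/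

lemma aa_sq (V : Site 2 → ℝ) (b k : ℕ) :
    aa V b k ^ 2 ≤ (4 * b + 1) ^ 2 * bb V b k := by
  unfold aa bb
  have h4 : (0 : ℝ) < 4 ^ k := by positivity
  have h1 : (∑ z ∈ Bx b (k + 1), V z) ^ 2 ≤
      (Bx b (k + 1)).card * ∑ z ∈ Bx b (k + 1), V z ^ 2 := sq_sum_le_card_mul_sum_sq
  have h2 : 0 ≤ ∑ z ∈ Bx b (k + 1), V z ^ 2 := Finset.sum_nonneg fun _ _ => sq_nonneg _
  have h3 := mul_le_mul_of_nonneg_right (card_Bx b k) h2
  rw [div_pow, div_le_iff₀ (by positivity)]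
  calc (∑ z ∈ Bx b (k + 1), V z) ^ 2 ≤ (4 * b + 1) ^ 2 * 4 ^ k * ∑ z ∈ Bx b (k + 1), V z ^ 2 :=
        h1.trans h3
    _ = (4 * b + 1) ^ 2 * ((∑ z ∈ Bx b (k + 1), V z ^ 2) / 4 ^ k) * (4 ^ k) ^ 2 := by
        field_simp

theorem GLA (hLTM : LTM_stmt) : GLA_stmt := by
  intro C b
  set M : ℝ := (4 * b + 1) ^ 2 with hM
  have hM1 : 1 ≤ M := by
    rw [hM]
    have : (0 : ℝ) ≤ b := Nat.cast_nonneg b
    nlinarith
  refine ⟨|C| * (3 * M + 2), by positivity, ?_⟩
  intro a p V Tl Si φ Φ κ k1 hC hS k s hk1 hks N s0 w W hW hw hw0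
  have hC1 : 1 ≤ C := hS.cone
  have hC0 : 0 ≤ C := by linarith
  rw [abs_of_nonneg hC0]
  have hV : ∀ z, 0 ≤ V z := V_nonneg hC
  have h4 : (0 : ℝ) < 4 ^ k := by positivity
  set B := Bx b k with hB
  set B1 := Bx b (k + 1) with hB1
  set Λ := Bx b (s + 1) with hΛ
  have hBB1 : B ⊆ B1 := Bx_mono b (Nat.le_succ k)
  have hB1Λ : B1 ⊆ Λ := Bx_mono b (by omega)
  -- the averages
  set A := aa V b k with hA
  set D := bb V b k with hD
  set T := tt V b k s with hT
  have hA' : ∑ z ∈ B1, V z = A * 4 ^ k := by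
    rw [hA, aa, div_mul_cancel₀ _ h4.ne']
  have hD' : ∑ z ∈ B1, V z ^ 2 = D * 4 ^ k := by
    rw [hD, bb, div_mul_cancel₀ _ h4.ne']
  have hA0 : 0 ≤ A := by
    rw [hA, aa]
    exact div_nonneg (Finset.sum_nonneg fun z _ => hV z) h4.le
  have hD0 : 0 ≤ D := by
    rw [hD, bb]
    exact div_nonneg (Finset.sum_nonneg fun z _ => sq_nonneg _) h4.le
  have hT0 : 0 ≤ T := by
    rw [hT, tt]
    refine Finset.sum_nonneg fun y _ => mul_nonneg ?_ (hV y)
    have : 0 ≤ nm y := le_trans (abs_nonneg _) (le_max_left _ _)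
    positivity
  have hAsq : A ^ 2 ≤ M * D := aa_sq V b k
  have hq : qq V b k s = 1 + D + T ^ 2 := rfl
  -- the weights
  have hsw : ∑ z ∈ B, |w z| ≤ W * A := by
    calc ∑ z ∈ B, |w z| ≤ ∑ z ∈ B, W * V z / 4 ^ k := Finset.sum_le_sum hw
      _ ≤ ∑ z ∈ B1, W * V z / 4 ^ k :=
          Finset.sum_le_sum_of_subset_of_nonneg hBB1 fun z _ _ =>
            div_nonneg (mul_nonneg hW (hV z)) h4.le
      _ = W * A := by
          rw [← Finset.sum_div, ← Finset.mul_sum, hA']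
          field_simp
  have hsw0 : 0 ≤ ∑ z ∈ B, |w z| := Finset.sum_nonneg fun _ _ => abs_nonneg _
  have hw2 : ∑ z ∈ B, w z ^ 2 ≤ W ^ 2 * D / 4 ^ k := by
    calc ∑ z ∈ B, w z ^ 2 ≤ ∑ z ∈ B, (W * V z / 4 ^ k) ^ 2 := by
          refine Finset.sum_le_sum fun z hz => ?_
          rw [← sq_abs]
          exact pow_le_pow_left₀ (abs_nonneg _) (hw z hz) 2
      _ ≤ ∑ z ∈ B1, (W * V z / 4 ^ k) ^ 2 :=
          Finset.sum_le_sum_of_subset_of_nonneg hBB1 fun z _ _ => sq_nonneg _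
      _ = W ^ 2 / (4 ^ k) ^ 2 * ∑ z ∈ B1, V z ^ 2 := by
          rw [Finset.mul_sum]
          refine Finset.sum_congr rfl fun z _ => ?_
          ring
      _ = W ^ 2 * D / 4 ^ k := by
          rw [hD']
          field_simp
  -- the function `f`
  set f : Site 2 → ℝ := fun x => ∑ z ∈ B, w z * (φ (x - z) - Φ k x) with hf
  have hLa : ∀ x, La a f x = w x - (∑ z ∈ B, w z) * La a (Φ k) x := by
    intro x
    rw [hf, La_psi]
    simp only [mul_sub]
    rw [Finset.sum_sub_distrib, ← Finset.sum_mul]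
    congr 1
    have h5 : ∀ z ∈ B, w z * La a φ (x - z) = if z = x then w z else 0 := by
      intro z _
      rw [hS.lap]
      by_cases h : z = x
      · rw [if_pos h, if_pos (by rw [h, sub_self]), mul_one]
      · rw [if_neg h, if_neg (fun h' => h (sub_eq_zero.mp h').symm), mul_zero]
    rw [Finset.sum_congr rfl h5, Finset.sum_ite_eq' B x w]
    split_ifs with h
    · rfl
    · exact (hw0 x h).symm
  have hDf : ∀ x, Df f x = ∑ z ∈ B, w z * (Df φ (x - z) - Df (Φ k) x) := fun x => Df_psi B w φ (Φ k) x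
  -- the telescoping identity
  obtain ⟨F, hF, hFR⟩ := reward hLTM hC Λ N s0
  have htel := tele p Λ N (F := fun s => f s.1)
    (g := fun s => (w s.1 - (∑ z ∈ B, w z) * La a (Φ k) s.1) + Df f s.1 * dS a p s)
    (fun s _ => by rw [stp_pos p a f s, hLa]; ring) s0
  rw [Rw_add p Λ N (fun s => w s.1 - (∑ z ∈ B, w z) * La a (Φ k) s.1)
    (fun s => Df f s.1 * dS a p s), Rw_sub p Λ N (fun s => w s.1)
    (fun s => (∑ z ∈ B, w z) * La a (Φ k) s.1),
    Rw_smul p Λ N (∑ z ∈ B, w z) (fun s => La a (Φ k) s.1), hFR (Df f)] at htel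
  set E1 := Ex p Λ N (one Λ) s0 with hE1
  have hE10 : 0 ≤ E1 := by
    refine Ex_nonneg hC.p0 hC.p1 Λ N (fun s => ?_) s0
    unfold one; split_ifs <;> norm_num
  -- bound of the expectation of `f`
  have b1 : |Ex p Λ N (fun s => f s.1) s0| ≤ W * A * C * (1 + (k + 1) * E1) := by
    refine (Ex_abs hC.p0 hC.p1 Λ N _ s0).trans ?_
    have h6 : ∀ s : St, |f s.1| ≤ W * A * C * 1 + W * A * C * (k + 1) * one Λ s := by
      intro s
      have h7 : |f s.1| ≤ (∑ z ∈ B, |w z|) * (C * (1 + (k + 1) * one Λ s)) := by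
        rw [hf]
        simp only
        refine (Finset.abs_sum_le_sum_abs _ _).trans ?_
        rw [Finset.sum_mul]
        refine Finset.sum_le_sum fun z hz => ?_
        rw [abs_mul]
        refine mul_le_mul_of_nonneg_left ?_ (abs_nonneg _)
        by_cases hs : s.1 ∈ Λ
        · rw [one, if_pos hs]
          refine (hS.psiA k hk1 z hz s.1).trans ?_
          nlinarith
        · rw [one, if_neg hs, mul_zero, add_zero, mul_one]
          exact hS.psiO k hk1 z hz s.1 (fun h => hs (hB1Λ h))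
      have h8 : 0 ≤ one Λ s := by unfold one; split_ifs <;> norm_num
      have h9 : 0 ≤ C * (1 + (k + 1) * one Λ s) := by positivity
      calc |f s.1| ≤ (∑ z ∈ B, |w z|) * (C * (1 + (k + 1) * one Λ s)) := h7
        _ ≤ W * A * (C * (1 + (k + 1) * one Λ s)) := mul_le_mul_of_nonneg_right hsw h9
        _ = _ := by ring
    refine (Ex_mono hC.p0 hC.p1 Λ N h6 s0).trans (le_of_eq ?_)
    rw [Ex_add p Λ N (fun _ => W * A * C * 1) (fun s => W * A * C * (k + 1) * one Λ s), Ex_const,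
      Ex_smul p Λ N (W * A * C * (k + 1)) (one Λ)]
    ring
  -- bound of `f x0`
  have b2 : |f s0.1| ≤ W * C * (1 + D) := by
    have h7 : f s0.1 ^ 2 ≤ (∑ z ∈ B, w z ^ 2) * ∑ z ∈ B, (φ (s0.1 - z) - Φ k s0.1) ^ 2 := by
      rw [hf]
      exact Finset.sum_mul_sq_le_sq_mul_sq B w _
    have h8 := hS.psi2 k hk1 s0.1
    have h9 : f s0.1 ^ 2 ≤ (W ^ 2 * D / 4 ^ k) * (C * 4 ^ k) := by
      refine h7.trans (mul_le_mul hw2 h8 (Finset.sum_nonneg fun _ _ => sq_nonneg _) ?_)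
      positivity
    have h10 : (W ^ 2 * D / 4 ^ k) * (C * 4 ^ k) = W ^ 2 * D * C := by field_simp
    have h11 : f s0.1 ^ 2 ≤ (W * C * (1 + D)) ^ 2 := by
      rw [h10] at h9
      refine h9.trans ?_
      have h12 : D * C ≤ (C * (1 + D)) ^ 2 := by nlinarith [mul_nonneg hC0 hD0]
      nlinarith [sq_nonneg W]
    exact abs_le_of_sq_le_sq h11 (by positivity)
  -- bound of the reward
  have hcs : ∑ y ∈ Λ, Df f y * F y = ∑ y ∈ Λ \ B1, Df f y * F y + ∑ y ∈ B1, Df f y * F y :=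
    (Finset.sum_sdiff hB1Λ).symm
  have b3 : |∑ y ∈ Λ \ B1, Df f y * F y| ≤ C * W * (A * T) := by
    have h12 : ∀ y ∈ Λ \ B1, |Df f y * F y| ≤ (W * A * C) * (2 ^ k / (1 + nm y) ^ 3 * V y) := by
      intro y hy
      have hy' : y ∉ B1 := (Finset.mem_sdiff.mp hy).2
      have hn : 0 ≤ nm y := le_trans (abs_nonneg _) (le_max_left _ _)
      rw [abs_mul]
      have h13 : |Df f y| ≤ (W * A) * (C * 2 ^ k / (1 + nm y) ^ 3) := by
        rw [hDf]
        refine (Finset.abs_sum_le_sum_abs _ _).trans ?_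
        have h14 : ∀ z ∈ B, |w z * (Df φ (y - z) - Df (Φ k) y)| ≤
            |w z| * (C * 2 ^ k / (1 + nm y) ^ 3) := by
          intro z hz
          rw [abs_mul]
          exact mul_le_mul_of_nonneg_left (hS.far k hk1 z hz y hy') (abs_nonneg _)
        refine (Finset.sum_le_sum h14).trans ?_
        rw [← Finset.sum_mul]
        refine mul_le_mul_of_nonneg_right hsw ?_
        positivity
      calc |Df f y| * |F y| ≤ ((W * A) * (C * 2 ^ k / (1 + nm y) ^ 3)) * V y :=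
            mul_le_mul h13 (hF y) (abs_nonneg _) (by positivity)
        _ = _ := by ring
    refine (Finset.abs_sum_le_sum_abs _ _).trans ((Finset.sum_le_sum h12).trans (le_of_eq ?_))
    rw [← Finset.mul_sum, hT, tt]
    ring
  have b4 : |∑ y ∈ B1, Df f y * F y| ≤ C * W * D + C * W * A ^ 2 := by
    have h15 : ∑ y ∈ B1, Df f y * F y =
        ∑ z ∈ B1, ∑ y ∈ B1, w z * Df φ (y - z) * F y -
          (∑ z ∈ B, w z) * ∑ y ∈ B1, Df (Φ k) y * F y := by
      have h16 : ∑ z ∈ B1, ∑ y ∈ B1, w z * Df φ (y - z) * F y =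
          ∑ z ∈ B, ∑ y ∈ B1, w z * Df φ (y - z) * F y := by
        symm
        apply Finset.sum_subset hBB1
        intro z _ hz
        refine Finset.sum_eq_zero fun y _ => ?_
        rw [hw0 z hz]; ring
      rw [h16, Finset.sum_comm, Finset.mul_sum, ← Finset.sum_sub_distrib]
      refine Finset.sum_congr rfl fun y _ => ?_
      rw [hDf, Finset.sum_mul, Finset.sum_mul, ← Finset.sum_sub_distrib]
      refine Finset.sum_congr rfl fun z _ => ?_
      ring
    have h17 : |∑ z ∈ B1, ∑ y ∈ B1, w z * Df φ (y - z) * F y| ≤ C * W * D := by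
      refine (hS.form B1 w F).trans ?_
      have h18 : ∑ z ∈ B1, w z ^ 2 = ∑ z ∈ B, w z ^ 2 := by
        symm
        apply Finset.sum_subset hBB1
        intro z _ hz
        rw [hw0 z hz]; ring
      have h19 : ∑ y ∈ B1, F y ^ 2 ≤ D * 4 ^ k := by
        rw [← hD']
        refine Finset.sum_le_sum fun y _ => ?_
        rw [← sq_abs]
        exact pow_le_pow_left₀ (abs_nonneg _) (hF y) 2
      have h20 : Real.sqrt (∑ z ∈ B1, w z ^ 2) ≤ Real.sqrt (W ^ 2 * D / 4 ^ k) :=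
        Real.sqrt_le_sqrt (h18.le.trans hw2)
      have h21 : Real.sqrt (∑ y ∈ B1, F y ^ 2) ≤ Real.sqrt (D * 4 ^ k) := Real.sqrt_le_sqrt h19
      have h22 : Real.sqrt (W ^ 2 * D / 4 ^ k) * Real.sqrt (D * 4 ^ k) = W * D := by
        rw [← Real.sqrt_mul (by positivity)]
        have : W ^ 2 * D / 4 ^ k * (D * 4 ^ k) = (W * D) ^ 2 := by field_simp
        rw [this, Real.sqrt_sq (by positivity)]
      calc C * Real.sqrt (∑ z ∈ B1, w z ^ 2) * Real.sqrt (∑ y ∈ B1, F y ^ 2)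
          ≤ C * Real.sqrt (W ^ 2 * D / 4 ^ k) * Real.sqrt (D * 4 ^ k) := by gcongr
        _ = C * (Real.sqrt (W ^ 2 * D / 4 ^ k) * Real.sqrt (D * 4 ^ k)) := by ring
        _ = C * W * D := by rw [h22]; ring
    have h23 : |(∑ z ∈ B, w z) * ∑ y ∈ B1, Df (Φ k) y * F y| ≤ C * W * A ^ 2 := by
      rw [abs_mul]
      have h24 : |∑ z ∈ B, w z| ≤ W * A := (Finset.abs_sum_le_sum_abs _ _).trans hsw
      have h25 : |∑ y ∈ B1, Df (Φ k) y * F y| ≤ C * A := by
        refine (Finset.abs_sum_le_sum_abs _ _).trans ?_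
        have h26 : ∀ y ∈ B1, |Df (Φ k) y * F y| ≤ C / 4 ^ k * V y := by
          intro y _
          rw [abs_mul]
          exact mul_le_mul (hS.dphi1 k hk1 y) (hF y) (abs_nonneg _) (by positivity)
        refine (Finset.sum_le_sum h26).trans (le_of_eq ?_)
        rw [← Finset.mul_sum, hA']
        field_simp
      calc |∑ z ∈ B, w z| * |∑ y ∈ B1, Df (Φ k) y * F y| ≤ (W * A) * (C * A) :=
            mul_le_mul h24 h25 (abs_nonneg _) (by positivity)
        _ = C * W * A ^ 2 := by ring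
    rw [h15]
    exact (abs_sub _ _).trans (add_le_add h17 h23)
  -- conclusion
  have hCW : 0 ≤ C * W := mul_nonneg hC0 hW
  have c1 : A ≤ M * (1 + D + T ^ 2) := by nlinarith [sq_nonneg (A - 1), sq_nonneg T]
  have c2 : A * T ≤ M * (1 + D + T ^ 2) := by nlinarith [sq_nonneg (A - T), sq_nonneg T]
  have c3 : A ^ 2 ≤ M * (1 + D + T ^ 2) := by nlinarith [sq_nonneg T]
  have key : Rw p Λ N (fun s => w s.1) s0 - (∑ z ∈ B, w z) * Rw p Λ N (fun s => La a (Φ k) s.1) s0 =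
      Ex p Λ N (fun s => f s.1) s0 - f s0.1 - (∑ y ∈ Λ \ B1, Df f y * F y +
        ∑ y ∈ B1, Df f y * F y) := by
    rw [← hcs]
    linarith
  rw [key, hq]
  have e1 := abs_le.mp b1
  have e2 := abs_le.mp b2
  have e3 := abs_le.mp b3
  have e4 := abs_le.mp b4
  have d1 := mul_le_mul_of_nonneg_left c1 hCW
  have d2 := mul_le_mul_of_nonneg_left c2 hCW
  have d3 := mul_le_mul_of_nonneg_left c3 hCW
  have d4 : 0 ≤ C * W * (T ^ 2) := mul_nonneg hCW (sq_nonneg T)
  have d5 : 0 ≤ C * W * 1 := by linarith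
  have d6 : 0 ≤ C * W * D := mul_nonneg hCW hD0
  have d7 : 0 ≤ C * W * (k + 1) * A * E1 := by positivity
  have d8 : C * W * (k + 1) * A * E1 ≤ C * (3 * M + 2) * W * (k + 1) * A * E1 := by
    have : C * (3 * M + 2) * W * (k + 1) * A * E1 = (3 * M + 2) * (C * W * (k + 1) * A * E1) := by
      ring
    rw [this]
    nlinarith
  rw [abs_le]
  constructor <;> nlinarith

end Pool.Agent.Helper2.EXC
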