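import Pool.Agent.Helper99.EXC.GoalsE
import Pool.Agent.Helper99.ERW.PlaneRecur

/-!
# MET: mean ergodic theorem for oscillating weights
-/

open Finset MeasureTheory ProbabilityTheory Filter
open scoped ENNReal InnerProductSpace

namespace Pool.Agent.Helper2.EXC

open Pool.Agent.Helper99.ERW Pool.Agent.Helper99.EXC

variable {P : Measure (Env 2)}

theorem met_mp (hSE : SE P) (z : Site 2) : MeasurePreserving (shift z) P P :=
  ⟨measurable_shift z, hSE.1 z⟩

/-- Koopman operator of a shift. -/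
noncomputable def KU (hSE : SE P) (z : Site 2) : Lp ℝ 2 P →ₗᵢ[ℝ] Lp ℝ 2 P :=
  Lp.compMeasurePreservingₗᵢ ℝ (shift z) (met_mp hSE z)

theorem KU_coe (hSE : SE P) (z : Site 2) (g : Lp ℝ 2 P) :
    (KU hSE z g : Env 2 → ℝ) =ᵐ[P] (g : Env 2 → ℝ) ∘ shift z :=
  Lp.coeFn_compMeasurePreserving g (met_mp hSE z)

theorem KU_KU (hSE : SE P) (z y : Site 2) (g : Lp ℝ 2 P) :
    KU hSE z (KU hSE y g) = KU hSE (y + z) g := by
  apply Lp.ext
  have h1 := KU_coe hSE z (KU hSE y g)
  have h2 := (met_mp hSE z).quasiMeasurePreserving.ae_eq_comp (KU_coe hSE y g)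
  have h3 := KU_coe hSE (y + z) g
  filter_upwards [h1, h2, h3] with ω h1 h2 h3
  rw [h1, h3]
  simpa [Function.comp, shift_shift] using h2

theorem inv_const [IsProbabilityMeasure P] (hSE : SE P) (g : Lp ℝ 2 P)
    (hg : ∀ z, KU hSE z g = g) : ∃ c : ℝ, (g : Env 2 → ℝ) =ᵐ[P] fun _ => c := by
  have h1 : ∀ᵐ ω ∂P, ∀ z, (g : Env 2 → ℝ) (shift z ω) = (g : Env 2 → ℝ) ω := by
    rw [ae_all_iff]
    intro z
    have h2 := KU_coe hSE z g
    rw [hg z] at h2
    filter_upwards [h2] with ω h
    exact h.symm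
  have hm : Measurable (g : Env 2 → ℝ) := (Lp.stronglyMeasurable g).measurable
  have hsep : ∀ U : Set ℝ, MeasurableSet U → (∀ᶠ ω in ae P, (g : Env 2 → ℝ) ω ∈ U) ∨
      (∀ᶠ ω in ae P, (g : Env 2 → ℝ) ω ∉ U) := by
    intro U hU
    have hA : MeasurableSet (⋃ z, shift z ⁻¹' ((g : Env 2 → ℝ) ⁻¹' U) : Set (Env 2)) :=
      MeasurableSet.iUnion fun z => measurable_shift z (hm hU)
    have hinv : ∀ x, shift x ⁻¹' (⋃ y, shift y ⁻¹' ((g : Env 2 → ℝ) ⁻¹' U) : Set (Env 2)) =
        ⋃ y, shift y ⁻¹' ((g : Env 2 → ℝ) ⁻¹' U) := by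
      intro x
      ext ω
      simp only [Set.mem_preimage, Set.mem_iUnion, shift_shift]
      constructor
      · rintro ⟨y, hy⟩
        exact ⟨y + x, hy⟩
      · rintro ⟨y, hy⟩
        exact ⟨y - x, by rwa [sub_add_cancel]⟩
    rcases hSE.2 _ hA hinv with h | h
    · right
      have h2 : ∀ᵐ ω ∂P, ω ∉ (⋃ z, shift z ⁻¹' ((g : Env 2 → ℝ) ⁻¹' U) : Set (Env 2)) :=
        measure_eq_zero_iff_ae_notMem.1 h
      filter_upwards [h1, h2] with ω h1 h2 h3
      apply h2
      rw [Set.mem_iUnion]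
      refine ⟨0, ?_⟩
      rw [Set.mem_preimage, Set.mem_preimage, h1 0]
      exact h3
    · left
      have h2 : ∀ᵐ ω ∂P, ω ∈ (⋃ z, shift z ⁻¹' ((g : Env 2 → ℝ) ⁻¹' U) : Set (Env 2)) :=
        (mem_ae_iff_prob_eq_one hA).2 h
      filter_upwards [h1, h2] with ω h1 h2
      rw [Set.mem_iUnion] at h2
      obtain ⟨z, hz⟩ := h2
      rw [Set.mem_preimage, Set.mem_preimage, h1 z] at hz
      exact hz
  obtain ⟨c, hc⟩ := Filter.exists_eventuallyEq_const_of_forall_separating (l := ae P)
    (f := (g : Env 2 → ℝ)) MeasurableSet hsep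
  exact ⟨c, hc⟩

/-- The weighted sums of translates. -/
noncomputable def KT (hSE : SE P) (B : Finset (Site 2)) (h : Site 2 → ℝ) :
    Lp ℝ 2 P →ₗ[ℝ] Lp ℝ 2 P := ∑ z ∈ B, h z • (KU hSE z).toLinearMap

theorem KT_apply (hSE : SE P) (B : Finset (Site 2)) (h : Site 2 → ℝ) (g : Lp ℝ 2 P) :
    KT hSE B h g = ∑ z ∈ B, h z • KU hSE z g := by
  simp [KT]

theorem norm_sum_le' (hSE : SE P) (B : Finset (Site 2)) (h : Site 2 → ℝ) (c : ℝ)
    (hc : ∀ z ∈ B, |h z| ≤ c) (g : Lp ℝ 2 P) :
    ‖∑ z ∈ B, h z • KU hSE z g‖ ≤ B.card * c * ‖g‖ := by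
  refine (norm_sum_le _ _).trans ?_
  have h1 : ∀ z ∈ B, ‖h z • KU hSE z g‖ ≤ c * ‖g‖ := by
    intro z hz
    rw [norm_smul, LinearIsometry.norm_map, Real.norm_eq_abs]
    exact mul_le_mul_of_nonneg_right (hc z hz) (norm_nonneg _)
  refine (Finset.sum_le_sum h1).trans ?_
  rw [Finset.sum_const, nsmul_eq_mul]
  linarith

theorem card_box_le (b m k : ℕ) : ((box 2 (b * 2 ^ k + m)).card : ℝ) ≤
    (2 * b + 2 * m + 1) ^ 2 * 4 ^ k := by
  have h1 : (box 2 (b * 2 ^ k + m)).card = (2 * (b * 2 ^ k + m) + 1) ^ 2 := by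
    unfold Helper99.ERW.box
    rw [Fintype.card_piFinset]
    simp only [Int.card_Icc, Finset.prod_const, Finset.card_univ, Fintype.card_fin]
    congr 1
    omega
  rw [h1]
  push_cast
  have h2 : (1 : ℝ) ≤ 2 ^ k := one_le_pow₀ (by norm_num)
  have h3 : (4 : ℝ) ^ k = (2 ^ k) ^ 2 := by
    rw [← pow_mul, mul_comm, pow_mul]; norm_num
  rw [h3, ← mul_pow]
  have h4 : (2 : ℝ) * (b * 2 ^ k + m) + 1 ≤ (2 * b + 2 * m + 1) * 2 ^ k := by
    have : (0 : ℝ) ≤ m := Nat.cast_nonneg _
    nlinarith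
  have h5 : (0 : ℝ) ≤ 2 * (b * 2 ^ k + m) + 1 := by positivity
  exact pow_le_pow_left₀ h5 h4 2

theorem MET (hSTA : STA_stmt) : MET_stmt := by
  intro P _ hSE f hf hf2 h C b k1 hS hB hL h0
  have hC : 0 ≤ C := by
    have h1 := (abs_nonneg _).trans (hB k1 le_rfl 0)
    have h2 : (0 : ℝ) < 4 ^ k1 := by positivity
    rcases lt_or_ge C 0 with h3 | h3
    · exfalso
      have := div_neg_of_neg_of_pos h3 h2
      linarith
    · exact h3
  -- operators
  set T : ℕ → Lp ℝ 2 P →ₗ[ℝ] Lp ℝ 2 P := fun k => KT hSE (Bx b k) (h k) with hT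
  have hTn : ∀ k, k1 ≤ k → ∀ g, ‖T k g‖ ≤ ((2 * b + 1) ^ 2 * C) * ‖g‖ := by
    intro k hk g
    rw [hT]
    simp only
    rw [KT_apply]
    refine (norm_sum_le' hSE _ _ (C / 4 ^ k) (fun z _ => hB k hk z) g).trans ?_
    apply mul_le_mul_of_nonneg_right _ (norm_nonneg _)
    have h1 := card_box_le b 0 k
    have h2 : (0 : ℝ) < 4 ^ k := by positivity
    have h3 : Bx b k = box 2 (b * 2 ^ k + 0) := rfl
    rw [h3]
    calc ((box 2 (b * 2 ^ k + 0)).card : ℝ) * (C / 4 ^ k) ≤
        ((2 * b + 2 * (0 : ℕ) + 1) ^ 2 * 4 ^ k) * (C / 4 ^ k) :=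
          mul_le_mul_of_nonneg_right h1 (by positivity)
      _ = (2 * b + 1) ^ 2 * C := by
          push_cast
          field_simp
          ring
  let K : Submodule ℝ (Lp ℝ 2 P) :=
    { carrier := {g | Tendsto (fun k => T k g) atTop (nhds 0)}
      zero_mem' := by
        simp only [Set.mem_ofPred_eq, map_zero]
        exact tendsto_const_nhds
      add_mem' := by
        intro x y hx hy
        simp only [Set.mem_ofPred_eq, map_add] at hx hy ⊢
        simpa using hx.add hy
      smul_mem' := by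
        intro c x hx
        simp only [Set.mem_ofPred_eq, map_smul] at hx ⊢
        simpa using hx.const_smul c }
  have memK : ∀ g, g ∈ K ↔ Tendsto (fun k => T k g) atTop (nhds 0) := fun g => Iff.rfl
  have hKc : IsClosed (K : Set (Lp ℝ 2 P)) := by
    apply isClosed_of_closure_subset
    intro g hg
    change g ∈ K
    rw [memK, Metric.tendsto_atTop]
    intro ε hε
    set D : ℝ := (2 * b + 1) ^ 2 * C with hD
    have hD0 : 0 ≤ D := by positivity
    obtain ⟨g', hg', hd⟩ := Metric.mem_closure_iff.1 hg (ε / (2 * (D + 1))) (by positivity)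
    have h1 : Tendsto (fun k => T k g') atTop (nhds 0) := hg'
    rw [Metric.tendsto_atTop] at h1
    obtain ⟨N, hN⟩ := h1 (ε / 2) (by positivity)
    refine ⟨max N k1, fun n hn => ?_⟩
    have h2 := hN n (le_of_max_le_left hn)
    have h3 := hTn n (le_of_max_le_right hn) (g - g')
    rw [dist_zero_right] at h2 ⊢
    rw [dist_eq_norm] at hd
    have h4 : T n g = T n (g - g') + T n g' := by
      rw [← map_add, sub_add_cancel]
    rw [h4]
    have h5 := norm_add_le (T n (g - g')) (T n g')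
    have h6 : D * ‖g - g'‖ ≤ D * (ε / (2 * (D + 1))) := mul_le_mul_of_nonneg_left hd.le hD0
    have h7 : D * (ε / (2 * (D + 1))) < ε / 2 := by
      rw [mul_div_assoc', div_lt_div_iff₀ (by positivity) (by norm_num)]
      nlinarith
    linarith
  have hdiff : ∀ (y : Site 2) (g : Lp ℝ 2 P), g - KU hSE y g ∈ K := by
    intro y g
    rw [memK]
    set m : ℕ := (y 0).natAbs + (y 1).natAbs with hm
    have hym : ∀ l, |y l| ≤ (m : ℤ) := by
      intro l
      fin_cases l
      · simp only [hm, Fin.zero_eta, Fin.isValue, Nat.cast_add, Int.natCast_natAbs]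
        have := abs_nonneg (y 1)
        linarith
      · simp only [hm, Fin.mk_one, Fin.isValue, Nat.cast_add, Int.natCast_natAbs]
        have := abs_nonneg (y 0)
        linarith
    have key : ∀ k, k1 ≤ k → T k (g - KU hSE y g) =
        ∑ w ∈ box 2 (b * 2 ^ k + m), (h k w - h k (w - y)) • KU hSE w g := by
      intro k hk
      rw [map_sub]
      have e1 : T k g = ∑ w ∈ box 2 (b * 2 ^ k + m), h k w • KU hSE w g := by
        rw [hT]
        simp only
        rw [KT_apply]
        apply Finset.sum_subset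
        · intro z hz
          unfold Bx at hz
          rw [mem_box] at hz ⊢
          intro l
          have := hz l
          push_cast at this ⊢
          have h3 : (0 : ℤ) ≤ m := Int.natCast_nonneg _
          linarith
        · intro z _ hz
          rw [hS k hk z hz, zero_smul]
      have e2 : T k (KU hSE y g) = ∑ w ∈ box 2 (b * 2 ^ k + m), h k (w - y) • KU hSE w g := by
        rw [hT]
        simp only
        rw [KT_apply]
        have e3 : ∀ z ∈ Bx b k, h k z • KU hSE z (KU hSE y g) =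
            (fun w => h k (w - y) • KU hSE w g) (y + z) := by
          intro z _
          simp only
          rw [KU_KU, add_sub_cancel_left]
        rw [Finset.sum_congr rfl e3, ← Finset.sum_image (f := fun w => h k (w - y) • KU hSE w g)
          (g := fun z => y + z) (fun a _ b _ hab => add_left_cancel hab)]
        apply Finset.sum_subset
        · intro w hw
          rw [Finset.mem_image] at hw
          obtain ⟨z, hz, rfl⟩ := hw
          unfold Bx at hz
          rw [mem_box] at hz ⊢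
          intro l
          have h1 := hz l
          have h2 := hym l
          have h3 := abs_add_le (y l) (z l)
          simp only [Pi.add_apply]
          push_cast at h1 ⊢
          linarith
        · intro w _ hw
          have h1 : w - y ∉ Bx b k := by
            intro h2
            exact hw (Finset.mem_image.2 ⟨w - y, h2, by simp⟩)
          rw [hS k hk _ h1, zero_smul]
      rw [e1, e2, ← Finset.sum_sub_distrib]
      exact Finset.sum_congr rfl fun w _ => (sub_smul _ _ _).symm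
    have bound : ∀ k, k1 ≤ k → ‖T k (g - KU hSE y g)‖ ≤
        ((2 * b + 2 * m + 1) ^ 2 * (C * nm y) * ‖g‖) * (1 / 2) ^ k := by
      intro k hk
      rw [key k hk]
      have hny : 0 ≤ nm y := by
        unfold nm
        exact le_max_of_le_left (abs_nonneg _)
      have h1 : ∀ w ∈ box 2 (b * 2 ^ k + m), |h k w - h k (w - y)| ≤ C / 8 ^ k * nm y := by
        intro w _
        have := hL k hk w (w - y)
        rwa [sub_sub_cancel] at this
      refine (norm_sum_le' hSE _ (fun w => h k w - h k (w - y)) _ h1 g).trans ?_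
      have h2 := card_box_le b m k
      have h3 : (0 : ℝ) < 8 ^ k := by positivity
      calc ((box 2 (b * 2 ^ k + m)).card : ℝ) * (C / 8 ^ k * nm y) * ‖g‖ ≤
          ((2 * b + 2 * m + 1) ^ 2 * 4 ^ k) * (C / 8 ^ k * nm y) * ‖g‖ := by
            apply mul_le_mul_of_nonneg_right _ (norm_nonneg _)
            exact mul_le_mul_of_nonneg_right h2 (by positivity)
        _ = ((2 * b + 2 * m + 1) ^ 2 * (C * nm y) * ‖g‖) * (1 / 2) ^ k := by
            have h4 : (8 : ℝ) ^ k = 4 ^ k * 2 ^ k := by rw [← mul_pow]; norm_num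
            rw [h4, one_div, inv_pow]
            field_simp
    have hlim : Tendsto (fun k : ℕ => ((2 * b + 2 * m + 1) ^ 2 * (C * nm y) * ‖g‖) *
        (1 / 2 : ℝ) ^ k) atTop (nhds 0) := by
      have := (tendsto_pow_atTop_nhds_zero_of_lt_one (r := (1 / 2 : ℝ)) (by norm_num)
        (by norm_num)).const_mul ((2 * (b : ℝ) + 2 * m + 1) ^ 2 * (C * nm y) * ‖g‖)
      simpa using this
    rw [tendsto_zero_iff_norm_tendsto_zero]
    refine squeeze_zero' (Eventually.of_forall fun _ => norm_nonneg _) ?_ hlim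
    filter_upwards [eventually_ge_atTop k1] with k hk
    exact bound k hk
  -- the centred function
  set m : ℝ := ∫ ω, f (ω 0) ∂P with hm
  have hF2 : MemLp (fun ω : Env 2 => f (ω 0) - m) 2 P := hf2.sub (memLp_const m)
  set F : Lp ℝ 2 P := hF2.toLp _ with hF
  have hFae : (F : Env 2 → ℝ) =ᵐ[P] fun ω => f (ω 0) - m := hF2.coeFn_toLp
  have hfi : Integrable (fun ω : Env 2 => f (ω 0)) P := hf2.integrable (by norm_num)
  have hFK : F ∈ K := by
    have : CompleteSpace K := hKc.completeSpace_coe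
    rw [← Submodule.orthogonal_orthogonal K, Submodule.mem_orthogonal]
    intro g hg
    rw [Submodule.mem_orthogonal'] at hg
    have hinv : ∀ z, KU hSE z g = g := by
      intro z
      have h1 := hg _ (hdiff z g)
      rw [inner_sub_right, real_inner_self_eq_norm_sq] at h1
      have h2 : ‖KU hSE z g - g‖ ^ 2 = 0 := by
        rw [norm_sub_sq_real, LinearIsometry.norm_map, real_inner_comm]
        linarith
      have h3 : ‖KU hSE z g - g‖ = 0 := by simpa using h2
      exact sub_eq_zero.1 (norm_eq_zero.1 h3)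
    obtain ⟨c, hc⟩ := inv_const hSE g hinv
    rw [L2.inner_def]
    have h4 : ∫ ω, ⟪(g : Env 2 → ℝ) ω, (F : Env 2 → ℝ) ω⟫_ℝ ∂P =
        ∫ ω, c * (f (ω 0) - m) ∂P := by
      apply integral_congr_ae
      filter_upwards [hc, hFae] with ω h5 h6
      rw [h5, h6]
      simp [mul_comm]
    rw [h4, integral_const_mul, integral_sub hfi (integrable_const _)]
    simp [hm]
  have hfin : Tendsto (fun k => ‖T k F‖ ^ 2) atTop (nhds 0) := by
    have h1 := (memK F).1 hFK
    rw [tendsto_zero_iff_norm_tendsto_zero] at h1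
    simpa using h1.pow 2
  refine hfin.congr' ?_
  filter_upwards [eventually_ge_atTop k1] with k hk
  have h1 : (T k F : Env 2 → ℝ) =ᵐ[P] fun ω => ∑ z ∈ Bx b k, h k z * f (ω z) := by
    rw [hT]
    simp only
    rw [KT_apply]
    have h2 := Lp.coeFn_fun_finsetSum (Bx b k) (fun z => h k z • KU hSE z F)
    have h3 : ∀ᵐ ω ∂P, ∀ z : Site 2, (h k z • KU hSE z F : Lp ℝ 2 P) ω =
        h k z * (f (ω z) - m) := by
      rw [ae_all_iff]
      intro z
      have h4 := Lp.coeFn_smul (h k z) (KU hSE z F)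
      have h5 := KU_coe hSE z F
      have h6 := (met_mp hSE z).quasiMeasurePreserving.ae_eq_comp hFae
      filter_upwards [h4, h5, h6] with ω h4 h5 h6
      rw [h4, Pi.smul_apply, h5, h6, smul_eq_mul]
      simp [shift]
    filter_upwards [h2, h3] with ω h2 h3
    rw [h2, Finset.sum_congr rfl (fun z _ => h3 z)]
    simp only [mul_sub]
    rw [Finset.sum_sub_distrib, ← Finset.sum_mul, h0 k hk, zero_mul, sub_zero]
  rw [← real_inner_self_eq_norm_sq, L2.inner_def]
  apply integral_congr_ae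
  filter_upwards [h1] with ω h2
  rw [h2]
  simp [pow_two]

end Pool.Agent.Helper2.EXC
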